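import Mathlib

set_option autoImplicit false

/-!
# Posted pricing versus optimal revenue with private outside options

The ratio between the optimal revenue and the best posted-price revenue is unbounded.
-/

namespace Pool.Agent.Results.MP_ec2b5b_lc.UnboundedGap

open Finset MeasureTheory

/-- The payment of a buyer of type `(v, c)` facing the menu `M` of lotteries `(x, p)`: the largest
payment of a utility-maximizing option (ties in the seller's favour), where declining has utility
`c` and payment `0`, and the lottery `(x, p)` has utility `v x - p` and payment `p`. -/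
noncomputable def pay (M : Finset (ℝ × ℝ)) (v c : ℝ) : ℝ :=
  sSup ({q : ℝ | q = 0 ∧ ∀ o ∈ M, v * o.1 - o.2 ≤ c} ∪
    {q : ℝ | ∃ o ∈ M, q = o.2 ∧ c ≤ v * o.1 - o.2 ∧ ∀ o' ∈ M, v * o'.1 - o'.2 ≤ v * o.1 - o.2})

/-- expected payment of the menu `M`, for independent `v ∼ F` and `c ∼ G` -/
noncomputable def revenue (F G : Measure ℝ) (M : Finset (ℝ × ℝ)) : ℝ :=
  ∫ v, ∫ c, pay M v c ∂G ∂F

/-- revenue of the posted price `P`: the buyer pays `P` exactly when `v - P ≥ c` -/
noncomputable def priceRevenue (F G : Measure ℝ) (P : ℝ) : ℝ :=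
  ∫ v, ∫ c, (if c ≤ v - P then P else 0) ∂G ∂F

/-- optimal revenue over all (finite) menus of lotteries `(x, p)` with `0 ≤ x ≤ 1` -/
noncomputable def OPT (F G : Measure ℝ) : EReal :=
  ⨆ M : {M : Finset (ℝ × ℝ) // ∀ o ∈ M, 0 ≤ o.1 ∧ o.1 ≤ 1}, ((revenue F G M.1 : ℝ) : EReal)

/-- optimal posted-price revenue -/
noncomputable def PP (F G : Measure ℝ) : EReal :=
  ⨆ P : {P : ℝ // 0 ≤ P}, ((priceRevenue F G P.1 : ℝ) : EReal)

/-- probability distributions on `[0, ∞)` -/
def IsDist (F : Measure ℝ) : Prop := IsProbabilityMeasure F ∧ F (Set.Iio 0) = 0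

/-! ### Finitely supported distributions -/

/-- the measure with mass `a i` at `y i` for `i < m` -/
noncomputable def disc (m : ℕ) (a y : ℕ → ℝ) : Measure ℝ :=
  ∑ i ∈ range m, ENNReal.ofReal (a i) • Measure.dirac (y i)

theorem integral_disc (m : ℕ) (a y : ℕ → ℝ) (ha : ∀ i, 0 ≤ a i) (h : ℝ → ℝ) :
    ∫ t, h t ∂(disc m a y) = ∑ i ∈ range m, a i * h (y i) := by
  unfold disc
  rw [integral_finsetSum_measure]
  · apply sum_congr rfl
    intro i _
    rw [integral_smul_measure, integral_dirac, ENNReal.toReal_ofReal (ha i), smul_eq_mul]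
  · intro i _
    exact (integrable_dirac (by simp)).smul_measure ENNReal.ofReal_ne_top

theorem isDist_disc (m : ℕ) (a y : ℕ → ℝ) (ha : ∀ i, 0 ≤ a i) (hsum : ∑ i ∈ range m, a i = 1)
    (hy : ∀ i, 0 ≤ y i) : IsDist (disc m a y) := by
  constructor
  · constructor
    unfold disc
    rw [Measure.finsetSum_apply]
    simp only [Measure.smul_apply, measure_univ, smul_eq_mul, mul_one]
    rw [← ENNReal.ofReal_sum_of_nonneg (fun i _ => ha i), hsum, ENNReal.ofReal_one]
  · unfold disc
    rw [Measure.finsetSum_apply]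
    apply sum_eq_zero
    intro i _
    rw [Measure.smul_apply, Measure.dirac_apply' _ measurableSet_Iio, Set.indicator_of_notMem]
    · simp
    · simpa using hy i

/-! ### A geometric estimate -/

theorem geom_bound (B : ℝ) (hB : 2 ≤ B) (q : ℝ) (m : ℕ) :
    ∑ j ∈ range m, (if q ≤ B ^ j then q / B ^ j else 0) ≤ 2 ∧
      (q ≤ B ^ m → ∑ j ∈ range m, (if q ≤ B ^ j then q / B ^ j else 0) ≤ 2 - 2 * (q / B ^ m)) := by
  induction m with
  | zero =>
    constructor
    · simp
    · intro h
      simp at h ⊢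
      linarith
  | succ m ih =>
    have hBm : 0 < B ^ m := pow_pos (by linarith) m
    have hBm1 : 0 < B ^ (m + 1) := pow_pos (by linarith) _
    have key : q ≤ B ^ (m + 1) → ∑ j ∈ range (m + 1), (if q ≤ B ^ j then q / B ^ j else 0) ≤
        2 - 2 * (q / B ^ (m + 1)) := by
      intro h
      rw [sum_range_succ]
      by_cases h1 : q ≤ B ^ m
      · rw [if_pos h1]
        have h2 := ih.2 h1
        rcases le_or_gt 0 q with h0 | h0
        · have h3 : 2 * (q / B ^ (m + 1)) ≤ q / B ^ m := by
            rw [pow_succ, ← mul_div_assoc, div_le_div_iff₀ (by positivity) hBm]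
            nlinarith [mul_nonneg h0 hBm.le]
          linarith
        · have h3 : q / B ^ m ≤ 0 := div_nonpos_of_nonpos_of_nonneg h0.le hBm.le
          have h4 : q / B ^ (m + 1) ≤ 0 := div_nonpos_of_nonpos_of_nonneg h0.le hBm1.le
          have h5 : ∑ j ∈ range m, (if q ≤ B ^ j then q / B ^ j else 0) ≤ 0 := by
            apply sum_nonpos
            intro j _
            split_ifs
            · exact div_nonpos_of_nonpos_of_nonneg h0.le (pow_pos (by linarith) j).le
            · exact le_rfl
          linarith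
      · rw [if_neg h1]
        have h2 : ∑ j ∈ range m, (if q ≤ B ^ j then q / B ^ j else 0) = 0 := by
          apply sum_eq_zero
          intro j hj
          rw [mem_range] at hj
          rw [if_neg]
          intro h3
          exact h1 (h3.trans (pow_le_pow_right₀ (by linarith) hj.le))
        rw [h2]
        have h3 : q / B ^ (m + 1) ≤ 1 := by rw [div_le_one hBm1]; exact h
        linarith
    refine ⟨?_, key⟩
    by_cases h : q ≤ B ^ (m + 1)
    · have h1 := key h
      rcases le_or_gt 0 q with h0 | h0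
      · have : 0 ≤ q / B ^ (m + 1) := div_nonneg h0 hBm1.le
        linarith
      · have h5 : ∑ j ∈ range (m + 1), (if q ≤ B ^ j then q / B ^ j else 0) ≤ 0 := by
          apply sum_nonpos
          intro j _
          split_ifs
          · exact div_nonpos_of_nonpos_of_nonneg h0.le (pow_pos (by linarith) j).le
          · exact le_rfl
        linarith
    · have h2 : ∑ j ∈ range (m + 1), (if q ≤ B ^ j then q / B ^ j else 0) = 0 := by
        apply sum_eq_zero
        intro j hj
        rw [mem_range] at hj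
        rw [if_neg]
        intro h3
        exact h (h3.trans (pow_le_pow_right₀ (by linarith) hj.le))
      rw [h2]
      norm_num

/-! ### The instance -/

section Instance

/-- values of the item -/
noncomputable def vv (i : ℕ) : ℝ := 4 ^ (i + 1)

/-- values of the outside option -/
noncomputable def uu (i : ℕ) : ℝ := 4 ^ (i + 1) - 2 * 2 ^ (i + 1)

/-- payments -/
noncomputable def pp (i : ℕ) : ℝ := 2 ^ (i + 1)

/-- allocation probabilities -/
noncomputable def xx (i : ℕ) : ℝ := 1 - 1 / 2 ^ (i + 1)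

/-- unnormalized weights of the outside option -/
noncomputable def gw (i : ℕ) : ℝ := 2 ^ ((i + 1) ^ 2)

/-- unnormalized weights of the item value -/
noncomputable def fw (i : ℕ) : ℝ := 1 / (2 ^ (i + 1) * 2 ^ ((i + 1) ^ 2))

theorem four_pow (i : ℕ) : (4 : ℝ) ^ i = 2 ^ i * 2 ^ i := by
  rw [← mul_pow]; norm_num

theorem gw_pos (i : ℕ) : 0 < gw i := by unfold gw; positivity

theorem fw_pos (i : ℕ) : 0 < fw i := by unfold fw; positivity

theorem uu_nonneg (i : ℕ) : 0 ≤ uu i := by
  unfold uu
  rw [four_pow]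
  have h : (2 : ℝ) ≤ 2 ^ (i + 1) := by
    calc (2 : ℝ) = 2 ^ 1 := by norm_num
      _ ≤ 2 ^ (i + 1) := pow_le_pow_right₀ (by norm_num) (by omega)
  nlinarith

theorem uu_gt {i j : ℕ} (h : j < i) : vv j < uu i := by
  have h1 : (2 : ℝ) ^ (j + 1) * 2 ≤ 2 ^ (i + 1) := by
    rw [← pow_succ]
    exact pow_le_pow_right₀ (by norm_num) (by omega)
  have h2 : (2 : ℝ) ≤ 2 ^ (j + 1) := by
    calc (2 : ℝ) = 2 ^ 1 := by norm_num
      _ ≤ 2 ^ (j + 1) := pow_le_pow_right₀ (by norm_num) (by omega)
  unfold vv uu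
  rw [four_pow, four_pow]
  nlinarith

theorem utility (i j : ℕ) : vv j * xx i - pp i ≤ uu j := by
  unfold vv xx pp uu
  have hi : (0 : ℝ) < 2 ^ (i + 1) := by positivity
  have hj : (0 : ℝ) < 2 ^ (j + 1) := by positivity
  rw [four_pow]
  have h : (2 : ℝ) * 2 ^ (j + 1) ≤ 2 ^ (j + 1) * 2 ^ (j + 1) / 2 ^ (i + 1) + 2 ^ (i + 1) := by
    rw [div_add' _ _ _ hi.ne', le_div_iff₀ hi]
    nlinarith [sq_nonneg ((2 : ℝ) ^ (j + 1) - 2 ^ (i + 1))]
  have h2 : (2 : ℝ) ^ (j + 1) * 2 ^ (j + 1) * (1 - 1 / 2 ^ (i + 1)) =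
      2 ^ (j + 1) * 2 ^ (j + 1) - 2 ^ (j + 1) * 2 ^ (j + 1) / 2 ^ (i + 1) := by ring
  rw [h2]
  linarith

theorem utility_eq (j : ℕ) : vv j * xx j - pp j = uu j := by
  unfold vv xx pp uu
  have hj : (0 : ℝ) < 2 ^ (j + 1) := by positivity
  rw [four_pow]
  field_simp
  ring

/-- the menu -/
noncomputable def menu (m : ℕ) : Finset (ℝ × ℝ) := (range m).image (fun i => (xx i, pp i))

theorem menu_valid (m : ℕ) : ∀ o ∈ menu m, 0 ≤ o.1 ∧ o.1 ≤ 1 := by
  intro o ho
  unfold menu at ho
  rw [mem_image] at ho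
  obtain ⟨i, -, rfl⟩ := ho
  have h : (1 : ℝ) ≤ 2 ^ (i + 1) := one_le_pow₀ (by norm_num)
  have h1 : 1 / (2 : ℝ) ^ (i + 1) ≤ 1 := by rw [div_le_one (by positivity)]; exact h
  have h2 : 0 ≤ 1 / (2 : ℝ) ^ (i + 1) := by positivity
  simp only [xx]
  constructor <;> linarith

theorem pay_nonneg (m : ℕ) (v c : ℝ) : 0 ≤ pay (menu m) v c := by
  apply Real.sSup_nonneg
  rintro q (⟨rfl, -⟩ | ⟨o, ho, rfl, -⟩)
  · exact le_rfl
  · unfold menu at ho
    rw [mem_image] at ho
    obtain ⟨i, -, rfl⟩ := ho
    simp only [pp]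
    positivity

theorem le_pay (m j : ℕ) (hj : j < m) : pp j ≤ pay (menu m) (vv j) (uu j) := by
  apply le_csSup
  · have hfin : (({0} : Set ℝ) ∪ ((menu m).image Prod.snd : Finset ℝ)).Finite :=
      (Set.finite_singleton _).union (Finset.finite_toSet _)
    apply hfin.bddAbove.mono
    rintro q (⟨rfl, -⟩ | ⟨o, ho, rfl, -⟩)
    · left; rfl
    · right
      rw [mem_coe, mem_image]
      exact ⟨o, ho, rfl⟩
  · right
    refine ⟨(xx j, pp j), ?_, rfl, (utility_eq j).ge, ?_⟩
    · unfold menu
      exact mem_image_of_mem _ (mem_range.mpr hj)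
    · intro o' ho'
      unfold menu at ho'
      rw [mem_image] at ho'
      obtain ⟨i, -, rfl⟩ := ho'
      simp only
      rw [utility_eq j]
      exact utility i j

/-- cumulative weights are at most twice the last weight -/
theorem cumulative (j : ℕ) : ∑ i ∈ range (j + 1), gw i ≤ 2 * gw j := by
  induction j with
  | zero => simp; linarith [gw_pos 0]
  | succ j ih =>
    rw [sum_range_succ]
    have h : 2 * gw j ≤ gw (j + 1) := by
      unfold gw
      rw [← pow_succ']
      apply pow_le_pow_right₀ (by norm_num)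
      have h1 : (j + 1 + 1) ^ 2 = (j + 1) ^ 2 + 2 * (j + 1) + 1 := by ring
      omega
    linarith

theorem fw_gw (j : ℕ) : fw j * gw j = 1 / 2 ^ (j + 1) := by
  unfold fw gw
  field_simp

theorem fw_gw_prev (j : ℕ) : fw (j + 1) * gw j ≤ 1 / 4 ^ (j + 2) := by
  unfold fw gw
  have h : (2 : ℝ) ^ ((j + 1 + 1) ^ 2) = 2 ^ ((j + 1) ^ 2) * (2 ^ (j + 1) * 2 ^ (j + 2)) := by
    rw [← pow_add, ← pow_add]
    congr 1
    ring
  rw [h, one_div, one_div, ← div_eq_inv_mul, div_le_iff₀ (by positivity), inv_mul_eq_div,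
    le_div_iff₀ (by positivity), four_pow]
  have h1 : (2 : ℝ) ^ (j + 2) = 2 * 2 ^ (j + 1) := by rw [← pow_succ']
  have h2 : (1 : ℝ) ≤ 2 ^ (j + 1) := one_le_pow₀ (by norm_num)
  rw [show j + 1 + 1 = j + 2 by ring, h1]
  have h3 : (0 : ℝ) < 2 ^ ((j + 1) ^ 2) := by positivity
  have h4 : (2 : ℝ) * 2 ^ (j + 1) * (2 * 2 ^ (j + 1)) ≤
      2 * 2 ^ (j + 1) * (2 ^ (j + 1) * (2 * 2 ^ (j + 1))) := by nlinarith [sq_nonneg ((2 : ℝ) ^ (j+1))]
  nlinarith

/-- the acceptance weight at value `vv j` for the price `P` -/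
theorem accept_bound (m j : ℕ) (P : ℝ) (hP : 0 ≤ P) :
    fw j * ∑ i ∈ range m, gw i * (if uu i ≤ vv j - P then P else 0) ≤
      2 * (if P / 2 ≤ 2 ^ (j + 1) then 2 * ((P / 2) / 2 ^ (j + 1)) else 0) +
      2 * (if P ≤ 4 ^ (j + 1) then P / 4 ^ (j + 1) else 0) := by
  have hfw := fw_pos j
  by_cases h1 : P ≤ 4 ^ (j + 1)
  · by_cases h2 : P / 2 ≤ 2 ^ (j + 1)
    · -- accepted at most by outside options up to index j
      have h3 : ∑ i ∈ range m, gw i * (if uu i ≤ vv j - P then P else 0) ≤
          P * ∑ i ∈ range (j + 1), gw i := by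
        rw [mul_sum]
        have h4 : ∑ i ∈ range m, gw i * (if uu i ≤ vv j - P then P else 0) =
            ∑ i ∈ (range m).filter (fun i => uu i ≤ vv j - P), P * gw i := by
          rw [sum_filter]
          apply sum_congr rfl
          intro i _
          split_ifs <;> ring
        rw [h4]
        apply sum_le_sum_of_subset_of_nonneg
        · intro i hi
          rw [mem_filter] at hi
          rw [mem_range]
          by_contra hcon
          have h5 := uu_gt (show j < i by omega)
          linarith [hi.2]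
        · intro i _ _
          exact mul_nonneg hP (gw_pos i).le
      have h5 := cumulative j
      have h6 := fw_gw j
      rw [if_pos h2, if_pos h1]
      have h7 : 0 ≤ P / 4 ^ (j + 1) := by positivity
      calc fw j * ∑ i ∈ range m, gw i * (if uu i ≤ vv j - P then P else 0)
          ≤ fw j * (P * (2 * gw j)) := by
            apply mul_le_mul_of_nonneg_left _ hfw.le
            exact h3.trans (mul_le_mul_of_nonneg_left h5 hP)
        _ = 2 * P * (fw j * gw j) := by ring
        _ = 2 * (2 * ((P / 2) / 2 ^ (j + 1))) := by rw [h6]; ring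
        _ ≤ _ := by linarith
    · -- accepted only by outside options below index j
      rw [if_neg h2, if_pos h1]
      rw [not_le] at h2
      rcases Nat.eq_zero_or_pos j with h0 | h0
      · subst h0
        exfalso
        norm_num at h1 h2
        linarith
      · obtain ⟨l, rfl⟩ := Nat.exists_eq_succ_of_ne_zero (by omega : j ≠ 0)
        have h3 : ∑ i ∈ range m, gw i * (if uu i ≤ vv (l + 1) - P then P else 0) ≤
            P * ∑ i ∈ range (l + 1), gw i := by
          rw [mul_sum]
          have h4 : ∑ i ∈ range m, gw i * (if uu i ≤ vv (l + 1) - P then P else 0) =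
              ∑ i ∈ (range m).filter (fun i => uu i ≤ vv (l + 1) - P), P * gw i := by
            rw [sum_filter]
            apply sum_congr rfl
            intro i _
            split_ifs <;> ring
          rw [h4]
          apply sum_le_sum_of_subset_of_nonneg
          · intro i hi
            rw [mem_filter] at hi
            rw [mem_range]
            by_contra hcon
            rcases Nat.lt_or_ge (l + 1) i with h5 | h5
            · have h6 := uu_gt h5
              linarith [hi.2]
            · have h6 : i = l + 1 := by omega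
              have h7 := hi.2
              rw [h6] at h7
              simp only [Nat.succ_eq_add_one] at h2
              unfold uu vv at h7
              linarith
          · intro i _ _
            exact mul_nonneg hP (gw_pos i).le
        have h5 := cumulative l
        have h6 := fw_gw_prev l
        have hfw' : 0 ≤ fw (l + 1) := (fw_pos _).le
        calc fw (l + 1) * ∑ i ∈ range m, gw i * (if uu i ≤ vv (l + 1) - P then P else 0)
            ≤ fw (l + 1) * (P * (2 * gw l)) := by
              apply mul_le_mul_of_nonneg_left _ hfw'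
              exact h3.trans (mul_le_mul_of_nonneg_left h5 hP)
          _ = 2 * P * (fw (l + 1) * gw l) := by ring
          _ ≤ 2 * P * (1 / 4 ^ (l + 2)) := mul_le_mul_of_nonneg_left h6 (by positivity)
          _ = 2 * 0 + 2 * (P / 4 ^ (l + 1 + 1)) := by ring
  · -- never accepted
    have h3 : ∑ i ∈ range m, gw i * (if uu i ≤ vv j - P then P else 0) = 0 := by
      apply sum_eq_zero
      intro i _
      rw [if_neg]
      · ring
      · have h4 := uu_nonneg i
        have h5 : vv j = 4 ^ (j + 1) := rfl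
        rw [not_le] at h1 ⊢
        linarith
    rw [h3, mul_zero]
    split_ifs <;> positivity

theorem price_bound (m : ℕ) (P : ℝ) (hP : 0 ≤ P) :
    ∑ j ∈ range m, fw j * ∑ i ∈ range m, gw i * (if uu i ≤ vv j - P then P else 0) ≤ 12 := by
  have h1 : ∑ j ∈ range m, fw j * ∑ i ∈ range m, gw i * (if uu i ≤ vv j - P then P else 0) ≤
      ∑ j ∈ range m, (2 * (if P / 2 ≤ 2 ^ (j + 1) then 2 * ((P / 2) / 2 ^ (j + 1)) else 0) +
      2 * (if P ≤ 4 ^ (j + 1) then P / 4 ^ (j + 1) else 0)) :=
    sum_le_sum (fun j _ => accept_bound m j P hP)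
  have h2 : ∑ j ∈ range m, (if P / 2 ≤ 2 ^ (j + 1) then (P / 2) / 2 ^ (j + 1) else 0) ≤ 2 := by
    have h3 := (geom_bound 2 le_rfl (P / 2) (m + 1)).1
    rw [sum_range_succ'] at h3
    have h4 : 0 ≤ (if P / 2 ≤ (2 : ℝ) ^ 0 then P / 2 / 2 ^ 0 else 0) := by
      split_ifs <;> positivity
    linarith
  have h3 : ∑ j ∈ range m, (if P ≤ 4 ^ (j + 1) then P / 4 ^ (j + 1) else 0) ≤ 2 := by
    have h3 := (geom_bound 4 (by norm_num) P (m + 1)).1
    rw [sum_range_succ'] at h3
    have h4 : 0 ≤ (if P ≤ (4 : ℝ) ^ 0 then P / 4 ^ 0 else 0) := by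
      split_ifs <;> positivity
    linarith
  rw [sum_add_distrib, ← mul_sum, ← mul_sum] at h1
  have h4 : ∑ j ∈ range m, (if P / 2 ≤ 2 ^ (j + 1) then 2 * ((P / 2) / 2 ^ (j + 1)) else 0) =
      2 * ∑ j ∈ range m, (if P / 2 ≤ 2 ^ (j + 1) then (P / 2) / 2 ^ (j + 1) else 0) := by
    rw [mul_sum]
    apply sum_congr rfl
    intro j _
    split_ifs <;> ring
  rw [h4] at h1
  linarith

theorem menu_bound (m : ℕ) :
    (m : ℝ) ≤ ∑ j ∈ range m, fw j * ∑ i ∈ range m, gw i * pay (menu m) (vv j) (uu i) := by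
  have h : ∀ j ∈ range m, (1 : ℝ) ≤ fw j * ∑ i ∈ range m, gw i * pay (menu m) (vv j) (uu i) := by
    intro j hj
    have h1 : gw j * pp j ≤ ∑ i ∈ range m, gw i * pay (menu m) (vv j) (uu i) := by
      calc gw j * pp j ≤ gw j * pay (menu m) (vv j) (uu j) :=
            mul_le_mul_of_nonneg_left (le_pay m j (mem_range.mp hj)) (gw_pos j).le
        _ ≤ _ := single_le_sum (f := fun i => gw i * pay (menu m) (vv j) (uu i))
            (fun i _ => mul_nonneg (gw_pos i).le (pay_nonneg m _ _)) hj
    calc (1 : ℝ) = fw j * (gw j * pp j) := by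
          rw [← mul_assoc, fw_gw]
          unfold pp
          field_simp
      _ ≤ _ := mul_le_mul_of_nonneg_left h1 (fw_pos j).le
  calc (m : ℝ) = ∑ j ∈ range m, (1 : ℝ) := by simp
    _ ≤ _ := sum_le_sum h

end Instance

/-- Posted pricing is not a constant-factor approximation: for every `C` there are (finitely
supported) distributions `F`, `G` on `[0, ∞)` with `C * PP F G < OPT F G`. -/
theorem result :
    (¬ ∃ C : ℝ, 1 ≤ C ∧ ∀ F G : Measure ℝ, IsDist F → IsDist G → OPT F G ≤ (C : EReal) * PP F G) ∧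
    ∀ C : ℝ, 1 ≤ C → ∃ F G : Measure ℝ, IsDist F ∧ IsDist G ∧ 0 < OPT F G ∧
      (C : EReal) * PP F G < OPT F G := by
  have main : ∀ C : ℝ, 1 ≤ C → ∃ F G : Measure ℝ, IsDist F ∧ IsDist G ∧ 0 < OPT F G ∧
      (C : EReal) * PP F G < OPT F G := by
    intro C hC
    obtain ⟨m, hm⟩ := exists_nat_gt (12 * C)
    have hm0 : (0 : ℝ) < m := by linarith
    have hmpos : 0 < m := by exact_mod_cast hm0
    have hne : (range m).Nonempty := ⟨0, mem_range.mpr hmpos⟩
    set Zf := ∑ i ∈ range m, fw i with hZf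
    set Zg := ∑ i ∈ range m, gw i with hZg
    have hZf0 : 0 < Zf := sum_pos (fun i _ => fw_pos i) hne
    have hZg0 : 0 < Zg := sum_pos (fun i _ => gw_pos i) hne
    set F := disc m (fun i => fw i / Zf) vv with hF
    set G := disc m (fun i => gw i / Zg) uu with hG
    have hfn : ∀ i, 0 ≤ fw i / Zf := fun i => div_nonneg (fw_pos i).le hZf0.le
    have hgn : ∀ i, 0 ≤ gw i / Zg := fun i => div_nonneg (gw_pos i).le hZg0.le
    have hFd : IsDist F := isDist_disc m _ _ hfn (by rw [← sum_div]; exact div_self hZf0.ne')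
      (fun i => by unfold vv; positivity)
    have hGd : IsDist G := isDist_disc m _ _ hgn (by rw [← sum_div]; exact div_self hZg0.ne')
      uu_nonneg
    have hint : ∀ h : ℝ → ℝ → ℝ, ∫ v, ∫ c, h v c ∂G ∂F =
        (∑ j ∈ range m, fw j * ∑ i ∈ range m, gw i * h (vv j) (uu i)) / (Zf * Zg) := by
      intro h
      rw [hF, hG, integral_disc m _ _ hfn]
      rw [sum_div]
      apply sum_congr rfl
      intro j _
      rw [integral_disc m _ _ hgn]
      have h1 : ∑ i ∈ range m, gw i / Zg * h (vv j) (uu i) =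
          (∑ i ∈ range m, gw i * h (vv j) (uu i)) / Zg := by
        rw [sum_div]
        apply sum_congr rfl
        intro i _
        ring
      rw [h1]
      field_simp
    have hrev : (m : ℝ) / (Zf * Zg) ≤ revenue F G (menu m) := by
      unfold revenue
      rw [hint (fun v c => pay (menu m) v c)]
      exact div_le_div_of_nonneg_right (menu_bound m) (by positivity)
    have hprice : ∀ P : ℝ, 0 ≤ P → priceRevenue F G P ≤ 12 / (Zf * Zg) := by
      intro P hP
      unfold priceRevenue
      rw [hint (fun v c => if c ≤ v - P then P else 0)]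
      exact div_le_div_of_nonneg_right (price_bound m P hP) (by positivity)
    have hOPT : ((((m : ℝ) / (Zf * Zg) : ℝ)) : EReal) ≤ OPT F G := by
      refine le_trans ?_ (le_iSup (fun M : {M : Finset (ℝ × ℝ) // ∀ o ∈ M, 0 ≤ o.1 ∧ o.1 ≤ 1} =>
        ((revenue F G M.1 : ℝ) : EReal)) ⟨menu m, menu_valid m⟩)
      exact EReal.coe_le_coe_iff.mpr hrev
    have hPP : PP F G ≤ ((12 / (Zf * Zg) : ℝ) : EReal) := by
      apply iSup_le
      rintro ⟨P, hP⟩
      exact EReal.coe_le_coe_iff.mpr (hprice P hP)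
    refine ⟨F, G, hFd, hGd, ?_, ?_⟩
    · refine lt_of_lt_of_le ?_ hOPT
      rw [← EReal.coe_zero, EReal.coe_lt_coe_iff]
      positivity
    · have hC0 : (0 : EReal) ≤ (C : EReal) := by
        rw [← EReal.coe_zero, EReal.coe_le_coe_iff]; linarith
      calc (C : EReal) * PP F G ≤ (C : EReal) * ((12 / (Zf * Zg) : ℝ) : EReal) :=
            mul_le_mul_of_nonneg_left hPP hC0
        _ = ((C * (12 / (Zf * Zg)) : ℝ) : EReal) := by rw [EReal.coe_mul]
        _ < (((m : ℝ) / (Zf * Zg) : ℝ) : EReal) := by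
            rw [EReal.coe_lt_coe_iff, ← mul_div_assoc]
            apply div_lt_div_of_pos_right _ (by positivity)
            linarith
        _ ≤ OPT F G := hOPT
  refine ⟨?_, main⟩
  rintro ⟨C, hC, h⟩
  obtain ⟨F, G, hF, hG, -, hlt⟩ := main C hC
  exact absurd (h F G hF hG) (not_le.mpr hlt)

end Pool.Agent.Results.MP_ec2b5b_lc.UnboundedGap
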